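import Pool.Agent.Helper66.Stz.Arith

set_option autoImplicit false

namespace Stz

open Finset

/-! ## the norm on `ZMod A` -/

theorem h3_nrm_neg (A : ℕ) (x : ZMod A) : nrm A (-x) = nrm A x := by
  unfold nrm
  rw [← Int.cast_abs, ← Int.cast_abs, Int.abs_eq_natAbs, Int.abs_eq_natAbs,
    ZMod.natAbs_valMinAbs_neg]

theorem h3_nrm_add (A : ℕ) (x y : ZMod A) : nrm A (x + y) ≤ nrm A x + nrm A y := by
  unfold nrm
  rw [← add_div]
  apply div_le_div_of_nonneg_right _ (by positivity)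
  have h := ZMod.natAbs_valMinAbs_add_le x y
  have h2 : ((x + y).valMinAbs.natAbs : ℤ) ≤ |x.valMinAbs + y.valMinAbs| := by
    rw [Int.abs_eq_natAbs]; exact_mod_cast h
  have h3 : |(x + y).valMinAbs| ≤ |x.valMinAbs| + |y.valMinAbs| := by
    rw [Int.abs_eq_natAbs (x + y).valMinAbs]; exact h2.trans (abs_add_le _ _)
  have h4 : ((|(x + y).valMinAbs| : ℤ) : ℝ) ≤ ((|x.valMinAbs| + |y.valMinAbs| : ℤ) : ℝ) :=
    Int.cast_le.mpr h3
  rw [Int.cast_add, Int.cast_abs, Int.cast_abs, Int.cast_abs] at h4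
  exact h4

theorem h3_nrm_sub (A : ℕ) (x y : ZMod A) : nrm A (x - y) ≤ nrm A x + nrm A y := by
  rw [sub_eq_add_neg, ← h3_nrm_neg A y]
  exact h3_nrm_add A x (-y)

theorem h3_nrm_ge (A : ℕ) [NeZero A] (D : ℕ) (hD : 1 ≤ D) (u : ZMod A) (hu : u ≠ 0)
    (h : (D : ZMod A) * u = 0) : 1 ≤ (D : ℝ) * nrm A u := by
  have hA : (0 : ℝ) < A := by exact_mod_cast Nat.pos_of_ne_zero (NeZero.ne A)
  unfold nrm
  have h1 : (((D : ℤ) * u.valMinAbs : ℤ) : ZMod A) = 0 := by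
    push_cast; exact h
  rw [ZMod.intCast_zmod_eq_zero_iff_dvd] at h1
  have h2 : (D : ℤ) * u.valMinAbs ≠ 0 := by
    apply mul_ne_zero
    · exact_mod_cast (by omega : D ≠ 0)
    · intro h3
      exact hu ((ZMod.valMinAbs_eq_zero u).mp h3)
  have h3 : (A : ℤ) ≤ |(D : ℤ) * u.valMinAbs| :=
    Int.le_of_dvd (abs_pos.mpr h2) ((dvd_abs _ _).mpr h1)
  have h4 : ((A : ℤ) : ℝ) ≤ ((|(D : ℤ) * u.valMinAbs| : ℤ) : ℝ) := Int.cast_le.mpr h3
  rw [Int.cast_abs, Int.cast_mul, abs_mul] at h4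
  simp only [Int.cast_natCast, Nat.abs_cast] at h4
  rw [← mul_div_assoc, le_div_iff₀ hA, one_mul]
  exact h4

/-- integrality -/
theorem h3_int (A v1 v2 : ℕ) [NeZero A] (h1 : v1 ∣ A) (h2 : v2 ∣ A) (X Y : ℤ)
    (h : ((X * ((A / v2 : ℕ) : ℤ) - Y * ((A / v1 : ℕ) : ℤ) : ℤ) : ZMod A) = 0) :
    ((v1 : ℤ) * v2) ∣ X * v1 - Y * v2 := by
  rw [ZMod.intCast_zmod_eq_zero_iff_dvd] at h
  obtain ⟨k, hk⟩ := h
  have hs1 : ((A / v1 : ℕ) : ℤ) * v1 = A := by exact_mod_cast Nat.div_mul_cancel h1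
  have hs2 : ((A / v2 : ℕ) : ℤ) * v2 = A := by exact_mod_cast Nat.div_mul_cancel h2
  have hA : (A : ℤ) ≠ 0 := by exact_mod_cast NeZero.ne A
  refine ⟨k, ?_⟩
  apply mul_left_cancel₀ hA
  calc (A : ℤ) * (X * v1 - Y * v2) = X * v1 * A - Y * v2 * A := by ring
    _ = X * v1 * (((A / v2 : ℕ) : ℤ) * v2) - Y * v2 * (((A / v1 : ℕ) : ℤ) * v1) := by
        rw [hs1, hs2]
    _ = (X * ((A / v2 : ℕ) : ℤ) - Y * ((A / v1 : ℕ) : ℤ)) * (v1 * v2) := by ring
    _ = (A : ℤ) * (v1 * v2 * k) := by rw [hk]; ring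

theorem h3_kill (A v a : ℕ) (h : v ∣ A) : (v : ZMod A) * ((a * (A / v) : ℕ) : ZMod A) = 0 := by
  have h1 : (v : ZMod A) * ((a * (A / v) : ℕ) : ZMod A) = ((a * (A / v * v) : ℕ) : ZMod A) := by
    push_cast
    ring
  rw [h1, Nat.div_mul_cancel h]
  push_cast
  rw [ZMod.natCast_self, mul_zero]

theorem paths_x (A V v1 v2 : ℕ) [NeZero A] (h1 : V ≤ v1) (h1' : v1 < 2 * V) (h2 : V ≤ v2)
    (h2' : v2 < 2 * V) (hV : 1 ≤ V) (hA : Good (2 * V) A) (ξ : ZMod A) (δ : ℝ) (hδ : 0 ≤ δ)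
    (hδV : 64 * (V : ℝ) ^ 2 * δ < 1) (P : Finset (ℕ × ℕ))
    (hP : ∀ p ∈ P, p.1 < v1 ∧ p.2 < v2 ∧
      nrm A (ξ - ((p.2 * (A / v2) : ℕ) : ZMod A) + ((p.1 * (A / v1) : ℕ) : ZMod A)) ≤ 2 * δ) :
    P.card ≤ Nat.gcd v1 v2 := by
  have hv1 : v1 ∣ A := hA v1 (by omega) (by omega)
  have hv2 : v2 ∣ A := hA v2 (by omega) (by omega)
  have hv1p : 0 < v1 := by omega
  have hv2p : 0 < v2 := by omega
  have hgpos : 0 < Nat.gcd v1 v2 := Nat.gcd_pos_of_pos_left _ hv1p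
  obtain ⟨w1, w2, hcop, hw1, hw2⟩ : ∃ w1 w2 : ℕ, Nat.Coprime w1 w2 ∧
      v1 = Nat.gcd v1 v2 * w1 ∧ v2 = Nat.gcd v1 v2 * w2 := by
    obtain ⟨w1, w2, hc, e1, e2⟩ := Nat.exists_coprime v1 v2
    exact ⟨w1, w2, hc, by rw [mul_comm]; exact e1, by rw [mul_comm]; exact e2⟩
  set g := Nat.gcd v1 v2 with hg
  have hw1p : 0 < w1 := by
    rcases Nat.eq_zero_or_pos w1 with h | h
    · rw [h] at hw1; omega
    · exact h
  have key : ∀ p ∈ P, ∀ q ∈ P,
      ((v1 : ℤ) * v2) ∣ ((q.2 : ℤ) - p.2) * v1 - ((q.1 : ℤ) - p.1) * v2 := by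
    intro p hp q hq
    obtain ⟨_, _, hpn⟩ := hP p hp
    obtain ⟨_, _, hqn⟩ := hP q hq
    set u : ZMod A := (ξ - ((p.2 * (A / v2) : ℕ) : ZMod A) + ((p.1 * (A / v1) : ℕ) : ZMod A)) -
      (ξ - ((q.2 * (A / v2) : ℕ) : ZMod A) + ((q.1 * (A / v1) : ℕ) : ZMod A)) with hu
    have hun : nrm A u ≤ 4 * δ := (h3_nrm_sub A _ _).trans (by linarith)
    have hu0 : u = 0 := by
      by_contra hne
      have h3 : ((v1 * v2 : ℕ) : ZMod A) * u = 0 := by
        have e1 := h3_kill A v1 p.1 hv1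
        have e2 := h3_kill A v2 p.2 hv2
        have e3 := h3_kill A v1 q.1 hv1
        have e4 := h3_kill A v2 q.2 hv2
        rw [hu]
        rw [Nat.cast_mul]
        linear_combination (v2 : ZMod A) * e1 - (v1 : ZMod A) * e2 - (v2 : ZMod A) * e3 +
          (v1 : ZMod A) * e4
      have h4 := h3_nrm_ge A (v1 * v2) (Nat.mul_pos hv1p hv2p) u hne h3
      have h5 : ((v1 * v2 : ℕ) : ℝ) ≤ 4 * (V : ℝ) ^ 2 := by
        have : v1 * v2 ≤ (2 * V) * (2 * V) := Nat.mul_le_mul h1'.le h2'.le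
        have h6 : ((v1 * v2 : ℕ) : ℝ) ≤ (((2 * V) * (2 * V) : ℕ) : ℝ) := Nat.cast_le.mpr this
        refine h6.trans (le_of_eq ?_)
        push_cast
        ring
      have h7 : ((v1 * v2 : ℕ) : ℝ) * nrm A u ≤ 4 * (V : ℝ) ^ 2 * (4 * δ) := by
        apply mul_le_mul h5 hun
        · unfold nrm; positivity
        · positivity
      have h8 : (0 : ℝ) ≤ (V : ℝ) ^ 2 * δ := by positivity
      nlinarith
    apply h3_int A v1 v2 hv1 hv2
    rw [← hu0, hu]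
    simp only [Int.cast_sub, Int.cast_mul, Int.cast_natCast, Nat.cast_mul]
    ring
  have hcard : P.card ≤ (Finset.range g).card := by
    apply Finset.card_le_card_of_injOn (fun p => p.1 / w1)
    · intro p hp
      have := (hP p hp).1
      simp only [Finset.coe_range, Set.mem_Iio]
      apply Nat.div_lt_of_lt_mul
      rw [mul_comm, ← hw1]
      exact this
    · intro p hp q hq hpq
      simp only at hpq
      have hk := key p hp q hq
      have hd1 : (w1 : ℤ) ∣ (q.1 : ℤ) - p.1 := by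
        have e1 : (v1 : ℤ) ∣ ((q.1 : ℤ) - p.1) * v2 := by
          have e2 : (v1 : ℤ) ∣ ((q.2 : ℤ) - p.2) * v1 - ((q.1 : ℤ) - p.1) * v2 :=
            (Dvd.intro _ rfl).trans hk
          have e3 := dvd_sub (Dvd.intro_left ((q.2 : ℤ) - p.2) rfl : (v1 : ℤ) ∣ _) e2
          simpa using e3
        have e4 : ((g : ℤ) * w1) ∣ (g : ℤ) * (((q.1 : ℤ) - p.1) * w2) := by
          have e5 : (v1 : ℤ) = (g : ℤ) * w1 := by exact_mod_cast hw1
          have e6 : (v2 : ℤ) = (g : ℤ) * w2 := by exact_mod_cast hw2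
          rw [← e5]
          rw [e6] at e1
          convert e1 using 1
          ring
        have e7 : (w1 : ℤ) ∣ ((q.1 : ℤ) - p.1) * w2 :=
          Int.dvd_of_mul_dvd_mul_left (by exact_mod_cast hgpos.ne') e4
        exact (Nat.isCoprime_iff_coprime.mpr hcop).dvd_of_dvd_mul_right e7
      have h11 : p.1 = q.1 := by
        have e1 : p.1 ≡ q.1 [MOD w1] := (Nat.modEq_iff_dvd).mpr hd1
        have e2 := Nat.div_add_mod p.1 w1
        have e3 := Nat.div_add_mod q.1 w1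
        unfold Nat.ModEq at e1
        rw [hpq, e1] at e2
        omega
      have h22 : p.2 = q.2 := by
        rw [h11, sub_self, zero_mul, sub_zero] at hk
        have e1 : ((v1 : ℤ) * v2) ∣ (v1 : ℤ) * ((q.2 : ℤ) - p.2) := by
          convert hk using 1
          ring
        have e2 : (v2 : ℤ) ∣ (q.2 : ℤ) - p.2 :=
          Int.dvd_of_mul_dvd_mul_left (by exact_mod_cast hv1p.ne') e1
        have e3 : p.2 ≡ q.2 [MOD v2] := (Nat.modEq_iff_dvd).mpr e2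
        have e4 := (hP p hp).2.1
        have e5 := (hP q hq).2.1
        exact Nat.ModEq.eq_of_lt_of_lt e3 e4 e5
      exact Prod.ext h11 h22
  simpa using hcard

theorem paths_t : ∀ ε : ℝ, 0 < ε → ∃ C : ℝ, 0 < C ∧ ∀ (A V g0 : ℕ) [NeZero A], 1 ≤ V → 1 ≤ g0 →
    Good (2 * V) A → ∀ (τ : ZMod A) (δ : ℝ), 0 ≤ δ → 64 * (V : ℝ) ^ 4 * δ < 1 →
    ∀ P : Finset ((ℕ × ℕ) × (ℕ × ℕ)), (∀ p ∈ P, V ≤ p.1.1 ∧ p.1.1 < 2 * V ∧ V ≤ p.2.1 ∧
      p.2.1 < 2 * V ∧ p.1.2 < p.1.1 ∧ p.2.2 < p.2.1 ∧ Nat.Coprime p.1.2 p.1.1 ∧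
      Nat.Coprime p.2.2 p.2.1 ∧ Nat.gcd p.1.1 p.2.1 ≤ g0 ∧
      nrm A (τ - ((p.2.2 * (A / p.2.1) : ℕ) : ZMod A) + ((p.1.2 * (A / p.1.1) : ℕ) : ZMod A)) ≤
        2 * δ) → (P.card : ℝ) ≤ C * (V : ℝ) ^ ε * g0 ^ 3 := by
  intro ε hε
  obtain ⟨C, hC, hdiv⟩ := divisor_bound (ε / 2) (by positivity)
  refine ⟨C * (4 : ℝ) ^ (ε / 2), by positivity, ?_⟩
  intro A V g0 _ hV hg0 hA τ δ hδ hδV P hP
  have hV0 : (1 : ℝ) ≤ V := by exact_mod_cast hV
  rcases P.eq_empty_or_nonempty with hPe | ⟨p0, hp0⟩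
  · rw [hPe]
    simp only [Finset.card_empty, Nat.cast_zero]
    positivity
  -- common value
  set th : (ℕ × ℕ) × (ℕ × ℕ) → ZMod A := fun p =>
    ((p.2.2 * (A / p.2.1) : ℕ) : ZMod A) - ((p.1.2 * (A / p.1.1) : ℕ) : ZMod A) with hth
  have hd1 : ∀ p ∈ P, p.1.1 ∣ A := fun p hp =>
    hA p.1.1 (by have := hP p hp; omega) (by have := hP p hp; omega)
  have hd2 : ∀ p ∈ P, p.2.1 ∣ A := fun p hp =>
    hA p.2.1 (by have := hP p hp; omega) (by have := hP p hp; omega)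
  have hkill : ∀ p ∈ P, ((p.1.1 * p.2.1 : ℕ) : ZMod A) * th p = 0 := by
    intro p hp
    have e1 := h3_kill A p.1.1 p.1.2 (hd1 p hp)
    have e2 := h3_kill A p.2.1 p.2.2 (hd2 p hp)
    simp only [hth]
    rw [Nat.cast_mul]
    linear_combination (p.1.1 : ZMod A) * e2 - (p.2.1 : ZMod A) * e1
  have hprod : ∀ p ∈ P, ((p.1.1 * p.2.1 : ℕ) : ℝ) ≤ 4 * (V : ℝ) ^ 2 := by
    intro p hp
    obtain ⟨h1, h2, h3, h4, _⟩ := hP p hp
    have : p.1.1 * p.2.1 ≤ (2 * V) * (2 * V) := Nat.mul_le_mul h2.le h4.le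
    have h6 : ((p.1.1 * p.2.1 : ℕ) : ℝ) ≤ (((2 * V) * (2 * V) : ℕ) : ℝ) := Nat.cast_le.mpr this
    refine h6.trans (le_of_eq ?_)
    push_cast
    ring
  have hsame : ∀ p ∈ P, th p = th p0 := by
    intro p hp
    by_contra hne
    have hne' : th p - th p0 ≠ 0 := sub_ne_zero.mpr hne
    obtain ⟨h1, h2, h3, h4, h5, h6, h7, h8, h9, hpn⟩ := hP p hp
    obtain ⟨k1, k2, k3, k4, k5, k6, k7, k8, k9, hqn⟩ := hP p0 hp0
    have hn : nrm A (th p - th p0) ≤ 4 * δ := by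
      have e : th p - th p0 = (τ - ((p0.2.2 * (A / p0.2.1) : ℕ) : ZMod A) +
          ((p0.1.2 * (A / p0.1.1) : ℕ) : ZMod A)) - (τ - ((p.2.2 * (A / p.2.1) : ℕ) : ZMod A) +
          ((p.1.2 * (A / p.1.1) : ℕ) : ZMod A)) := by
        simp only [hth]; ring
      rw [e]
      exact (h3_nrm_sub A _ _).trans (by linarith)
    have h3' : (((p.1.1 * p.2.1) * (p0.1.1 * p0.2.1) : ℕ) : ZMod A) * (th p - th p0) = 0 := by
      have e1 := hkill p hp
      have e2 := hkill p0 hp0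
      rw [Nat.cast_mul (p.1.1 * p.2.1)]
      linear_combination ((p0.1.1 * p0.2.1 : ℕ) : ZMod A) * e1 -
        ((p.1.1 * p.2.1 : ℕ) : ZMod A) * e2
    have hge := h3_nrm_ge A _ (Nat.mul_pos (Nat.mul_pos (by omega) (by omega))
      (Nat.mul_pos (by omega) (by omega))) _ hne' h3'
    rw [Nat.cast_mul (p.1.1 * p.2.1)] at hge
    have e3 : ((p.1.1 * p.2.1 : ℕ) : ℝ) * ((p0.1.1 * p0.2.1 : ℕ) : ℝ) ≤
        (4 * (V : ℝ) ^ 2) * (4 * (V : ℝ) ^ 2) :=
      mul_le_mul (hprod p hp) (hprod p0 hp0) (Nat.cast_nonneg _) (by positivity)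
    have hn0 : 0 ≤ nrm A (th p - th p0) := by unfold nrm; positivity
    have e4 : ((p.1.1 * p.2.1 : ℕ) : ℝ) * ((p0.1.1 * p0.2.1 : ℕ) : ℝ) * nrm A (th p - th p0) ≤
        (4 * (V : ℝ) ^ 2) * (4 * (V : ℝ) ^ 2) * (4 * δ) :=
      mul_le_mul e3 hn hn0 (by positivity)
    nlinarith
  -- the order
  set n : ℕ := addOrderOf (th p0) with hn
  have hnpos : 0 < n := addOrderOf_pos _
  have hnth : ∀ p ∈ P, (n : ZMod A) * th p = 0 := by
    intro p hp
    rw [hsame p hp, ← nsmul_eq_mul]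
    exact addOrderOf_nsmul_eq_zero _
  have hndvd : ∀ p ∈ P, n ∣ p.1.1 * p.2.1 := by
    intro p hp
    apply addOrderOf_dvd_of_nsmul_eq_zero
    rw [nsmul_eq_mul, ← hsame p hp]
    exact hkill p hp
  have hdvdn : ∀ p ∈ P, p.1.1 * p.2.1 ∣ n * (Nat.gcd p.1.1 p.2.1) ^ 2 := by
    intro p hp
    obtain ⟨h1, h2, h3, h4, h5, h6, h7, h8, h9, hpn⟩ := hP p hp
    obtain ⟨w1, w2, hcop, hw1, hw2⟩ : ∃ w1 w2 : ℕ, Nat.Coprime w1 w2 ∧
        p.1.1 = Nat.gcd p.1.1 p.2.1 * w1 ∧ p.2.1 = Nat.gcd p.1.1 p.2.1 * w2 := by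
      obtain ⟨w1, w2, hc, e1, e2⟩ := Nat.exists_coprime p.1.1 p.2.1
      exact ⟨w1, w2, hc, by rw [mul_comm]; exact e1, by rw [mul_comm]; exact e2⟩
    have hgpos : 0 < Nat.gcd p.1.1 p.2.1 := Nat.gcd_pos_of_pos_left _ (by omega)
    have hI : ((p.1.1 : ℤ) * p.2.1) ∣ ((n : ℤ) * p.2.2) * p.1.1 - ((n : ℤ) * p.1.2) * p.2.1 := by
      apply h3_int A p.1.1 p.2.1 (hd1 p hp) (hd2 p hp)
      rw [← hnth p hp]
      simp only [hth, Int.cast_sub, Int.cast_mul, Int.cast_natCast, Nat.cast_mul]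
      ring
    set g := Nat.gcd p.1.1 p.2.1 with hg
    have e5 : (p.1.1 : ℤ) = (g : ℤ) * w1 := by exact_mod_cast hw1
    have e6 : (p.2.1 : ℤ) = (g : ℤ) * w2 := by exact_mod_cast hw2
    have hg0' : (g : ℤ) ≠ 0 := by exact_mod_cast hgpos.ne'
    have hw1n : (w1 : ℤ) ∣ n := by
      have e1 : (p.1.1 : ℤ) ∣ ((n : ℤ) * p.1.2) * p.2.1 := by
        have e2 : (p.1.1 : ℤ) ∣ ((n : ℤ) * p.2.2) * p.1.1 - ((n : ℤ) * p.1.2) * p.2.1 :=
          (Dvd.intro _ rfl).trans hI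
        have e3 := dvd_sub (Dvd.intro_left ((n : ℤ) * p.2.2) rfl : (p.1.1 : ℤ) ∣ _) e2
        simpa using e3
      have e2 : (p.1.1 : ℤ) ∣ (n : ℤ) * p.2.1 := by
        have hc : IsCoprime (p.1.1 : ℤ) (p.1.2 : ℤ) := Nat.isCoprime_iff_coprime.mpr h7.symm
        have e0 : (p.1.2 : ℤ) * ((n : ℤ) * p.2.1) = ((n : ℤ) * p.1.2) * p.2.1 := by ring
        exact hc.dvd_of_dvd_mul_left (e0 ▸ e1)
      have e4 : ((g : ℤ) * w1) ∣ (g : ℤ) * ((n : ℤ) * w2) := by
        rw [← e5]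
        rw [e6] at e2
        convert e2 using 1
        ring
      have e7 : (w1 : ℤ) ∣ (n : ℤ) * w2 := Int.dvd_of_mul_dvd_mul_left hg0' e4
      exact (Nat.isCoprime_iff_coprime.mpr hcop).dvd_of_dvd_mul_right e7
    have hw2n : (w2 : ℤ) ∣ n := by
      have e1 : (p.2.1 : ℤ) ∣ ((n : ℤ) * p.2.2) * p.1.1 := by
        have e2 : (p.2.1 : ℤ) ∣ ((n : ℤ) * p.2.2) * p.1.1 - ((n : ℤ) * p.1.2) * p.2.1 :=
          (Dvd.intro_left _ rfl).trans hI
        have e3 := dvd_add (Dvd.intro_left ((n : ℤ) * p.1.2) rfl : (p.2.1 : ℤ) ∣ _) e2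
        simpa using e3
      have e2 : (p.2.1 : ℤ) ∣ (n : ℤ) * p.1.1 := by
        have hc : IsCoprime (p.2.1 : ℤ) (p.2.2 : ℤ) := Nat.isCoprime_iff_coprime.mpr h8.symm
        have e0 : (p.2.2 : ℤ) * ((n : ℤ) * p.1.1) = ((n : ℤ) * p.2.2) * p.1.1 := by ring
        exact hc.dvd_of_dvd_mul_left (e0 ▸ e1)
      have e4 : ((g : ℤ) * w2) ∣ (g : ℤ) * ((n : ℤ) * w1) := by
        rw [← e6]
        rw [e5] at e2
        convert e2 using 1
        ring
      have e7 : (w2 : ℤ) ∣ (n : ℤ) * w1 := Int.dvd_of_mul_dvd_mul_left hg0' e4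
      exact (Nat.isCoprime_iff_coprime.mpr hcop.symm).dvd_of_dvd_mul_right e7
    have hw1n' : w1 ∣ n := by exact_mod_cast hw1n
    have hw2n' : w2 ∣ n := by exact_mod_cast hw2n
    have hww : w1 * w2 ∣ n := hcop.mul_dvd_of_dvd_of_dvd hw1n' hw2n'
    rw [hw1, hw2]
    have : g * w1 * (g * w2) = w1 * w2 * g ^ 2 := by ring
    rw [this]
    exact Nat.mul_dvd_mul_right hww _
  -- the pairs of moduli
  classical
  set M : Finset (ℕ × ℕ) := P.image (fun p => (p.1.1, p.2.1)) with hM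
  have hfib : ∀ m ∈ M, ((P.filter fun p => (p.1.1, p.2.1) = m).card : ℝ) ≤ g0 := by
    intro m hm
    rw [hM, Finset.mem_image] at hm
    obtain ⟨q, hq, hqm⟩ := hm
    obtain ⟨h1, h2, h3, h4, h5, h6, h7, h8, h9, hqn⟩ := hP q hq
    have hm1 : m.1 = q.1.1 := by rw [← hqm]
    have hm2 : m.2 = q.2.1 := by rw [← hqm]
    have hδV2 : 64 * (V : ℝ) ^ 2 * δ < 1 := by
      have : (V : ℝ) ^ 2 ≤ (V : ℝ) ^ 4 := pow_le_pow_right₀ hV0 (by norm_num)
      have : 64 * (V : ℝ) ^ 2 * δ ≤ 64 * (V : ℝ) ^ 4 * δ := by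
        apply mul_le_mul_of_nonneg_right _ hδ
        linarith
      linarith
    set P' : Finset (ℕ × ℕ) := (P.filter fun p => (p.1.1, p.2.1) = m).image
      (fun p => (p.1.2, p.2.2)) with hP'
    have hc1 : (P.filter fun p => (p.1.1, p.2.1) = m).card = P'.card := by
      rw [hP', Finset.card_image_of_injOn]
      intro x hx y hy hxy
      simp only [Finset.coe_filter, Set.mem_ofPred_eq] at hx hy
      simp only [Prod.mk.injEq] at hxy
      have e1 := hx.2.trans hy.2.symm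
      simp only [Prod.mk.injEq] at e1
      exact Prod.ext (Prod.ext e1.1 hxy.1) (Prod.ext e1.2 hxy.2)
    have hc2 : P'.card ≤ Nat.gcd q.1.1 q.2.1 := by
      apply paths_x A V q.1.1 q.2.1 h1 h2 h3 h4 hV hA τ δ hδ hδV2
      intro r hr
      rw [hP', Finset.mem_image] at hr
      obtain ⟨s, hs, hsr⟩ := hr
      rw [Finset.mem_filter] at hs
      obtain ⟨k1, k2, k3, k4, k5, k6, k7, k8, k9, hsn⟩ := hP s hs.1
      have e1 := hs.2
      rw [← hqm] at e1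
      simp only [Prod.mk.injEq] at e1
      rw [← hsr, ← e1.1, ← e1.2]
      exact ⟨k5, k6, hsn⟩
    have : (P.filter fun p => (p.1.1, p.2.1) = m).card ≤ g0 := by
      rw [hc1]; exact hc2.trans h9
    exact_mod_cast this
  have hMcard : (M.card : ℝ) ≤ g0 ^ 2 * (C * (4 * (V : ℝ) ^ 2) ^ (ε / 2)) := by
    -- M is covered by the divisors of n * j
    set J : Finset ℕ := (Finset.Icc 1 (g0 ^ 2)).filter fun j =>
      ((n * j : ℕ) : ℝ) ≤ 4 * (V : ℝ) ^ 2 with hJ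
    have hsub : M ⊆ J.biUnion fun j => (Nat.divisors (n * j)).image fun v => (v, n * j / v) := by
      intro m hm
      rw [hM, Finset.mem_image] at hm
      obtain ⟨q, hq, hqm⟩ := hm
      obtain ⟨h1, h2, h3, h4, h5, h6, h7, h8, h9, hqn⟩ := hP q hq
      obtain ⟨j, hj⟩ := hndvd q hq
      have hpos : 0 < q.1.1 * q.2.1 := Nat.mul_pos (by omega) (by omega)
      have hjpos : 0 < j := by
        rcases Nat.eq_zero_or_pos j with h | h
        · rw [h, mul_zero] at hj; omega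
        · exact h
      have hjg : j ∣ (Nat.gcd q.1.1 q.2.1) ^ 2 := by
        have e := hdvdn q hq
        rw [hj] at e
        exact Nat.dvd_of_mul_dvd_mul_left hnpos e
      have hjle : j ≤ g0 ^ 2 := by
        have e1 := Nat.le_of_dvd (pow_pos (Nat.gcd_pos_of_pos_left _ (by omega)) 2) hjg
        exact e1.trans (Nat.pow_le_pow_left h9 2)
      rw [Finset.mem_biUnion]
      refine ⟨j, ?_, ?_⟩
      · rw [hJ, Finset.mem_filter, Finset.mem_Icc]
        refine ⟨⟨hjpos, hjle⟩, ?_⟩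
        rw [← hj]
        exact hprod q hq
      · rw [Finset.mem_image]
        refine ⟨q.1.1, ?_, ?_⟩
        · rw [Nat.mem_divisors, ← hj]
          exact ⟨Dvd.intro _ rfl, hpos.ne'⟩
        · rw [← hj, Nat.mul_div_cancel_left _ (by omega : 0 < q.1.1)]
          exact hqm
    have h1 : (M.card : ℝ) ≤ ∑ j ∈ J, (((Nat.divisors (n * j)).card : ℕ) : ℝ) := by
      have e1 := (Finset.card_le_card hsub).trans Finset.card_biUnion_le
      have e2 : ∑ j ∈ J, ((Nat.divisors (n * j)).image fun v => (v, n * j / v)).card ≤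
          ∑ j ∈ J, (Nat.divisors (n * j)).card := Finset.sum_le_sum fun j _ => Finset.card_image_le
      exact_mod_cast e1.trans e2
    refine h1.trans ?_
    have h2 : ∀ j ∈ J, (((Nat.divisors (n * j)).card : ℕ) : ℝ) ≤
        C * (4 * (V : ℝ) ^ 2) ^ (ε / 2) := by
      intro j hj
      rw [hJ, Finset.mem_filter, Finset.mem_Icc] at hj
      refine (hdiv (n * j) (Nat.mul_pos hnpos hj.1.1)).trans ?_
      apply mul_le_mul_of_nonneg_left _ hC.le
      exact Real.rpow_le_rpow (by positivity) hj.2 (by positivity)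
    refine (Finset.sum_le_sum h2).trans ?_
    rw [Finset.sum_const, nsmul_eq_mul]
    apply mul_le_mul_of_nonneg_right _ (by positivity)
    have h3 : J.card ≤ g0 ^ 2 := by
      refine (Finset.card_filter_le _ _).trans ?_
      simp
    exact_mod_cast h3
  have hPM : (P.card : ℝ) ≤ M.card * g0 := by
    have e1 : P.card = ∑ m ∈ M, (P.filter fun p => (p.1.1, p.2.1) = m).card :=
      Finset.card_eq_sum_card_image _ _
    rw [e1]
    push_cast
    refine (Finset.sum_le_sum hfib).trans ?_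
    rw [Finset.sum_const, nsmul_eq_mul]
  have hrp : (4 * (V : ℝ) ^ 2) ^ (ε / 2) = (4 : ℝ) ^ (ε / 2) * (V : ℝ) ^ ε := by
    rw [Real.mul_rpow (by norm_num) (by positivity), ← Real.rpow_natCast, ← Real.rpow_mul
      (by positivity)]
    congr 2
    push_cast
    ring
  calc (P.card : ℝ) ≤ M.card * g0 := hPM
    _ ≤ (g0 ^ 2 * (C * (4 * (V : ℝ) ^ 2) ^ (ε / 2))) * g0 :=
        mul_le_mul_of_nonneg_right hMcard (Nat.cast_nonneg _)
    _ = C * (4 : ℝ) ^ (ε / 2) * (V : ℝ) ^ ε * g0 ^ 3 := by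
        rw [hrp]; ring

/-! ## sums of `sg` -/

theorem h3_harm (V : ℕ) : ∑ j ∈ Icc 1 V, (1 : ℝ) / j ≤ 1 + Real.log V := by
  have h := harmonic_le_one_add_log V
  rw [harmonic_eq_sum_Icc] at h
  push_cast at h
  refine le_trans (le_of_eq ?_) h
  exact Finset.sum_congr rfl fun j _ => one_div _

theorem h3_gcdsum (V e : ℕ) (he : 1 ≤ e) :
    ∑ c ∈ Icc 1 V, (Nat.gcd e c : ℝ) / c ≤ (e.divisors.card : ℝ) * (1 + Real.log V) := by
  have h1 : ∀ c ∈ Icc 1 V, (Nat.gcd e c : ℝ) / c ≤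
      ∑ g ∈ e.divisors, if g ∣ c then (g : ℝ) / c else 0 := by
    intro c hc
    have hmem : Nat.gcd e c ∈ e.divisors := by
      rw [Nat.mem_divisors]
      exact ⟨Nat.gcd_dvd_left _ _, by omega⟩
    have h2 := Finset.single_le_sum (f := fun g : ℕ => if g ∣ c then (g : ℝ) / c else 0)
      (fun g _ => by
        split_ifs
        · positivity
        · exact le_rfl) hmem
    simp only [Nat.gcd_dvd_right, if_true] at h2
    exact h2
  refine (Finset.sum_le_sum h1).trans ?_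
  rw [Finset.sum_comm]
  have h2 : ∀ g ∈ e.divisors, ∑ c ∈ Icc 1 V, (if g ∣ c then (g : ℝ) / c else 0) ≤
      1 + Real.log V := by
    intro g hg
    have hgpos : 0 < g := Nat.pos_of_mem_divisors hg
    rw [← Finset.sum_filter]
    have h3 : ∑ c ∈ (Icc 1 V).filter (fun c => g ∣ c), (g : ℝ) / c =
        ∑ j ∈ ((Icc 1 V).filter (fun c => g ∣ c)).image (fun c => c / g), (1 : ℝ) / j := by
      rw [Finset.sum_image]
      · apply Finset.sum_congr rfl
        intro c hc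
        rw [Finset.mem_filter, Finset.mem_Icc] at hc
        obtain ⟨k, hk⟩ := hc.2
        rw [hk, Nat.mul_div_cancel_left _ hgpos]
        have hk0 : 0 < k := by
          rcases Nat.eq_zero_or_pos k with h | h
          · rw [h, mul_zero] at hk; omega
          · exact h
        have h4 : (0 : ℝ) < g := by exact_mod_cast hgpos
        have h5 : (0 : ℝ) < k := by exact_mod_cast hk0
        push_cast
        field_simp
      · intro c hc d hd hcd
        simp only [Finset.coe_filter, Finset.mem_Icc, Set.mem_ofPred_eq] at hc hd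
        simp only at hcd
        have e1 := Nat.div_mul_cancel hc.2
        have e2 := Nat.div_mul_cancel hd.2
        rw [← e1, ← e2, hcd]
    rw [h3]
    refine le_trans ?_ (h3_harm V)
    apply Finset.sum_le_sum_of_subset_of_nonneg
    · intro j hj
      rw [Finset.mem_image] at hj
      obtain ⟨c, hc, hcj⟩ := hj
      rw [Finset.mem_filter, Finset.mem_Icc] at hc
      rw [Finset.mem_Icc, ← hcj]
      constructor
      · exact Nat.div_pos (Nat.le_of_dvd (by omega) hc.2) hgpos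
      · exact (Nat.div_le_self _ _).trans hc.1.2
    · intro j _ _
      positivity
  refine (Finset.sum_le_sum h2).trans ?_
  rw [Finset.sum_const, nsmul_eq_mul]

theorem h3_gcdsq (e c : ℕ) (he : 1 ≤ e) :
    (Nat.gcd e (c ^ 2) : ℝ) ≤ Real.sqrt e * Nat.gcd e c := by
  have h1 : (Nat.gcd e (c ^ 2) : ℝ) ≤ e := by
    exact_mod_cast Nat.le_of_dvd he (Nat.gcd_dvd_left _ _)
  have h2 : Nat.gcd e (c ^ 2) ∣ (Nat.gcd e c) ^ 2 := by
    rw [← Nat.pow_gcd_pow]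
    exact Nat.gcd_dvd_gcd_of_dvd_left _ (Dvd.intro_left _ (by ring : e * e = e ^ 2))
  have h3 : (Nat.gcd e (c ^ 2) : ℝ) ≤ (Nat.gcd e c : ℝ) ^ 2 := by
    have := Nat.le_of_dvd (pow_pos (Nat.gcd_pos_of_pos_left _ he) 2) h2
    exact_mod_cast this
  have h4 : (Nat.gcd e (c ^ 2) : ℝ) ^ 2 ≤ (Real.sqrt e * Nat.gcd e c) ^ 2 := by
    rw [mul_pow, Real.sq_sqrt (Nat.cast_nonneg _), sq]
    exact mul_le_mul h1 h3 (Nat.cast_nonneg _) (Nat.cast_nonneg _)
  exact abs_le_of_sq_le_sq' h4 (by positivity) |>.2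

theorem h3_sg_le (V v : ℕ) (hv : v ∈ Icc 1 V) :
    (sg v : ℝ) ≤ (v.divisors.card : ℝ) * ∑ c ∈ Icc 1 V, if c ^ 2 ∣ v then (c : ℝ) else 0 := by
  unfold sg
  rw [Finset.mem_Icc] at hv
  push_cast
  have h1 : ∀ u ∈ v.divisors, (Nat.gcd u (v / u) : ℝ) ≤
      ∑ c ∈ Icc 1 V, if c ^ 2 ∣ v then (c : ℝ) else 0 := by
    intro u hu
    have hdv := Nat.dvd_of_mem_divisors hu
    have hupos := Nat.pos_of_mem_divisors hu
    have hsq : (Nat.gcd u (v / u)) ^ 2 ∣ v := by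
      have e1 : u * (v / u) = v := Nat.mul_div_cancel' hdv
      have e2 : Nat.gcd u (v / u) * Nat.gcd u (v / u) ∣ u * (v / u) :=
        Nat.mul_dvd_mul (Nat.gcd_dvd_left _ _) (Nat.gcd_dvd_right _ _)
      rw [e1] at e2
      rw [sq]
      exact e2
    have hmem : Nat.gcd u (v / u) ∈ Icc 1 V := by
      rw [Finset.mem_Icc]
      refine ⟨Nat.gcd_pos_of_pos_left _ hupos, ?_⟩
      exact (Nat.le_of_dvd hupos (Nat.gcd_dvd_left _ _)).trans
        ((Nat.le_of_dvd (by omega) hdv).trans hv.2)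
    have h2 := Finset.single_le_sum (f := fun c : ℕ => if c ^ 2 ∣ v then (c : ℝ) else 0)
      (fun c _ => by
        split_ifs
        · positivity
        · exact le_rfl) hmem
    simp only [hsq, if_true] at h2
    exact h2
  refine (Finset.sum_le_sum h1).trans ?_
  rw [Finset.sum_const, nsmul_eq_mul]

theorem h3_count (V e c : ℕ) (he : 1 ≤ e) (hc : 1 ≤ c) :
    (((Icc 1 V).filter fun v => e ∣ v ∧ c ^ 2 ∣ v).card : ℝ) * c ≤
      V / Real.sqrt e * ((Nat.gcd e c : ℝ) / c) := by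
  have h1 : ((Icc 1 V).filter fun v => e ∣ v ∧ c ^ 2 ∣ v).card = V / Nat.lcm e (c ^ 2) := by
    rw [← Nat.Ioc_filter_dvd_card_eq_div]
    congr 1
    ext v
    simp only [Finset.mem_filter, Finset.mem_Icc, Finset.mem_Ioc, Nat.lcm_dvd_iff]
    constructor
    · rintro ⟨h, h'⟩; exact ⟨⟨by omega, h.2⟩, h'⟩
    · rintro ⟨h, h'⟩; exact ⟨⟨by omega, h.2⟩, h'⟩
  rw [h1]
  have he0 : (0 : ℝ) < e := by exact_mod_cast he
  have hc0 : (0 : ℝ) < c := by exact_mod_cast hc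
  have hs0 : (0 : ℝ) < Real.sqrt e := Real.sqrt_pos.mpr he0
  have hl : 0 < Nat.lcm e (c ^ 2) := Nat.lcm_pos he (pow_pos hc 2)
  have hl0 : (0 : ℝ) < (Nat.lcm e (c ^ 2) : ℝ) := by exact_mod_cast hl
  have h2 : ((V / Nat.lcm e (c ^ 2) : ℕ) : ℝ) ≤ V / (Nat.lcm e (c ^ 2) : ℝ) := Nat.cast_div_le
  have h3 : (Nat.gcd e (c ^ 2) : ℝ) * (Nat.lcm e (c ^ 2) : ℝ) = e * c ^ 2 := by
    exact_mod_cast Nat.gcd_mul_lcm e (c ^ 2)
  have h4 := h3_gcdsq e c he
  have hg0 : (0 : ℝ) < (Nat.gcd e (c ^ 2) : ℝ) := by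
    exact_mod_cast Nat.gcd_pos_of_pos_left _ he
  calc ((V / Nat.lcm e (c ^ 2) : ℕ) : ℝ) * c ≤ V / (Nat.lcm e (c ^ 2) : ℝ) * c :=
        mul_le_mul_of_nonneg_right h2 hc0.le
    _ = V * c * (Nat.gcd e (c ^ 2) : ℝ) / (e * c ^ 2) := by
        rw [← h3]
        field_simp
    _ ≤ V * c * (Real.sqrt e * Nat.gcd e c) / (e * c ^ 2) := by
        apply div_le_div_of_nonneg_right _ (by positivity)
        apply mul_le_mul_of_nonneg_left h4 (by positivity)
    _ = V / Real.sqrt e * ((Nat.gcd e c : ℝ) / c) := by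
        have h5 : Real.sqrt e * Real.sqrt e = e := Real.mul_self_sqrt he0.le
        rw [div_mul_div_comm, div_eq_div_iff (by positivity) (by positivity)]
        linear_combination (V * c ^ 2 * (Nat.gcd e c : ℝ)) * h5

theorem sg_sum : ∀ ε : ℝ, 0 < ε → ∃ C : ℝ, 0 < C ∧ ∀ V e : ℕ, 1 ≤ V → 1 ≤ e →
    (∑ v ∈ (Icc 1 V).filter (fun v => e ∣ v), (sg v : ℝ)) ≤
      C * (V : ℝ) ^ (1 + ε) / Real.sqrt e := by
  intro ε hε
  obtain ⟨C, hC, hdiv⟩ := divisor_bound (ε / 3) (by positivity)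
  refine ⟨C * C * (1 + 1 / (ε / 3)), by positivity, ?_⟩
  intro V e hV he
  have hV0 : (1 : ℝ) ≤ V := by exact_mod_cast hV
  have he0 : (0 : ℝ) < e := by exact_mod_cast he
  have hs0 : (0 : ℝ) < Real.sqrt e := Real.sqrt_pos.mpr he0
  rcases Nat.lt_or_ge V e with hlt | hge
  · have : (Icc 1 V).filter (fun v => e ∣ v) = ∅ := by
      apply Finset.filter_eq_empty_iff.mpr
      intro v hv hd
      rw [Finset.mem_Icc] at hv
      have := Nat.le_of_dvd (by omega) hd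
      omega
    rw [this, Finset.sum_empty]
    positivity
  have hdV : ∀ v : ℕ, 1 ≤ v → v ≤ V → (v.divisors.card : ℝ) ≤ C * (V : ℝ) ^ (ε / 3) := by
    intro v h1 h2
    refine (hdiv v h1).trans ?_
    apply mul_le_mul_of_nonneg_left _ hC.le
    exact Real.rpow_le_rpow (Nat.cast_nonneg _) (by exact_mod_cast h2) (by positivity)
  have hlog : 1 + Real.log V ≤ (1 + 1 / (ε / 3)) * (V : ℝ) ^ (ε / 3) := by
    have h1 := Real.log_le_rpow_div (x := (V : ℝ)) (by positivity) (show 0 < ε / 3 by positivity)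
    have h2 : (1 : ℝ) ≤ (V : ℝ) ^ (ε / 3) := Real.one_le_rpow hV0 (by positivity)
    calc 1 + Real.log V ≤ (V : ℝ) ^ (ε / 3) + (V : ℝ) ^ (ε / 3) / (ε / 3) := add_le_add h2 h1
      _ = _ := by ring
  calc ∑ v ∈ (Icc 1 V).filter (fun v => e ∣ v), (sg v : ℝ)
      ≤ ∑ v ∈ (Icc 1 V).filter (fun v => e ∣ v), C * (V : ℝ) ^ (ε / 3) *
          ∑ c ∈ Icc 1 V, (if c ^ 2 ∣ v then (c : ℝ) else 0) := by
        apply Finset.sum_le_sum
        intro v hv
        rw [Finset.mem_filter] at hv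
        refine (h3_sg_le V v hv.1).trans ?_
        rw [Finset.mem_Icc] at hv
        apply mul_le_mul_of_nonneg_right (hdV v hv.1.1 hv.1.2)
        apply Finset.sum_nonneg
        intro c _
        split_ifs
        · positivity
        · exact le_rfl
    _ = C * (V : ℝ) ^ (ε / 3) * ∑ c ∈ Icc 1 V,
          (((Icc 1 V).filter fun v => e ∣ v ∧ c ^ 2 ∣ v).card : ℝ) * c := by
        rw [← Finset.mul_sum, Finset.sum_comm]
        congr 1
        apply Finset.sum_congr rfl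
        intro c _
        rw [← Finset.sum_filter, Finset.filter_filter, Finset.sum_const, nsmul_eq_mul]
    _ ≤ C * (V : ℝ) ^ (ε / 3) * ∑ c ∈ Icc 1 V, V / Real.sqrt e * ((Nat.gcd e c : ℝ) / c) := by
        apply mul_le_mul_of_nonneg_left _ (by positivity)
        apply Finset.sum_le_sum
        intro c hc
        rw [Finset.mem_Icc] at hc
        exact h3_count V e c he hc.1
    _ = C * (V : ℝ) ^ (ε / 3) * (V / Real.sqrt e) * ∑ c ∈ Icc 1 V, ((Nat.gcd e c : ℝ) / c) := by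
        rw [← Finset.mul_sum]; ring
    _ ≤ C * (V : ℝ) ^ (ε / 3) * (V / Real.sqrt e) *
          ((C * (V : ℝ) ^ (ε / 3)) * ((1 + 1 / (ε / 3)) * (V : ℝ) ^ (ε / 3))) := by
        apply mul_le_mul_of_nonneg_left _ (by positivity)
        refine (h3_gcdsum V e he).trans ?_
        apply mul_le_mul (hdV e he hge) hlog
        · have : 0 ≤ Real.log V := Real.log_nonneg hV0
          linarith
        · positivity
    _ = C * C * (1 + 1 / (ε / 3)) * (V : ℝ) ^ (1 + ε) / Real.sqrt e := by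
        have h1 : (V : ℝ) ^ (1 + ε) = V * ((V : ℝ) ^ (ε / 3) * (V : ℝ) ^ (ε / 3) *
            (V : ℝ) ^ (ε / 3)) := by
          rw [← Real.rpow_add (by positivity), ← Real.rpow_add (by positivity),
            Real.rpow_add (by positivity), Real.rpow_one]
          congr 2
          ring
        rw [h1]
        ring

end Stz
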