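import Pool.Agent.Helper89.Stz.Defs

set_option autoImplicit false

namespace Stz

open Finset

theorem h3_ps_norm (A : ℕ) [NeZero A] (z : ZMod A) : ‖ps A z‖ = 1 := by
  unfold ps
  rw [ZMod.stdAddChar_apply]
  exact Circle.norm_coe _

theorem h3_ps_add (A : ℕ) [NeZero A] (z w : ZMod A) : ps A (z + w) = ps A z * ps A w := by
  unfold ps
  exact AddChar.map_add_eq_mul _ _ _

theorem h3_ps_int_sub_one (A : ℕ) [NeZero A] (k : ℤ) :
    ‖ps A (k : ZMod A) - 1‖ ≤ 2 * Real.pi * |(k : ℝ)| / A := by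
  unfold ps
  rw [ZMod.stdAddChar_coe]
  have hA : (0 : ℝ) < A := by exact_mod_cast Nat.pos_of_ne_zero (NeZero.ne A)
  have h1 : (2 * (Real.pi : ℂ) * Complex.I * (k : ℂ) / (A : ℂ)) =
      Complex.I * ((2 * Real.pi * k / A : ℝ) : ℂ) := by
    push_cast
    ring
  rw [h1]
  refine Real.norm_exp_I_mul_ofReal_sub_one_le.trans ?_
  rw [Real.norm_eq_abs, abs_div, abs_mul, abs_mul, abs_of_pos Real.pi_pos, abs_of_pos hA]
  simp

/-- block index -/
def h3blk (A L : ℕ) (z : ZMod A) : ℕ := z.val / (A / L)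

theorem h3_Bpos (A L : ℕ) [NeZero A] (hLA : L ∣ A) (hL : 1 ≤ L) : 0 < A / L :=
  Nat.div_pos (Nat.le_of_dvd (Nat.pos_of_ne_zero (NeZero.ne A)) hLA) hL

theorem h3_blk_lt (A L : ℕ) [NeZero A] (hLA : L ∣ A) (z : ZMod A) : h3blk A L z < L := by
  unfold h3blk
  apply Nat.div_lt_of_lt_mul
  rw [Nat.div_mul_cancel hLA]
  exact ZMod.val_lt z

theorem h3_blk_succ (A L : ℕ) [NeZero A] (hLA : L ∣ A) (z : ZMod A)
    (h : ¬ (A / L) ∣ z.val + 1) : h3blk A L (z + 1) = h3blk A L z := by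
  have hlt : z.val + 1 < A := by
    have h1 := ZMod.val_lt z
    rcases Nat.lt_or_ge (z.val + 1) A with h2 | h2
    · exact h2
    · exfalso
      apply h
      have : z.val + 1 = A := by omega
      rw [this]
      exact Nat.div_dvd_of_dvd hLA
  have hval : (z + 1).val = z.val + 1 := by
    have h2 : (1 : ZMod A).val = 1 := by
      have : Fact (1 < A) := ⟨by omega⟩
      exact ZMod.val_one A
    rw [ZMod.val_add_of_lt, h2]
    rw [h2]; exact hlt
  unfold h3blk
  rw [hval]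
  rw [Nat.succ_div_of_not_dvd h]

theorem h3_tv_block (A L : ℕ) [NeZero A] (hL : 1 ≤ L) (hLA : L ∣ A) (G : ℕ → ℂ)
    (hG : ∀ j, ‖G j‖ ≤ 1) : tv A (fun z => G (h3blk A L z)) ≤ 2 * L := by
  have hB := h3_Bpos A L hLA hL
  unfold tv
  calc ∑ z : ZMod A, ‖G (h3blk A L (z + 1)) - G (h3blk A L z)‖
      ≤ ∑ z : ZMod A, if (A / L) ∣ z.val + 1 then (2 : ℝ) else 0 := by
        apply Finset.sum_le_sum
        intro z _
        split_ifs with h
        · refine (norm_sub_le _ _).trans ?_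
          have h1 := hG (h3blk A L (z + 1))
          have h2 := hG (h3blk A L z)
          linarith
        · rw [h3_blk_succ A L hLA z h]
          simp
    _ = 2 * ((univ.filter fun z : ZMod A => (A / L) ∣ z.val + 1).card : ℝ) := by
        rw [← Finset.sum_filter, Finset.sum_const, nsmul_eq_mul]
        ring
    _ ≤ 2 * L := by
        have : (univ.filter fun z : ZMod A => (A / L) ∣ z.val + 1).card ≤ L := by
          have h1 : (univ.filter fun z : ZMod A => (A / L) ∣ z.val + 1).card ≤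
              (Finset.range L).card := by
            apply Finset.card_le_card_of_injOn (h3blk A L)
            · intro z _
              simp only [Finset.coe_range, Set.mem_Iio]
              exact h3_blk_lt A L hLA z
            · intro z hz w hw hzw
              simp only [Finset.coe_filter, Finset.mem_univ, true_and, Set.mem_ofPred_eq] at hz hw
              unfold h3blk at hzw
              obtain ⟨c, hc⟩ := hz
              obtain ⟨d, hd⟩ := hw
              have key : ∀ (v c B : ℕ), 0 < B → v + 1 = B * c → v / B = c - 1 ∧ 1 ≤ c := by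
                intro v c B hB h
                rcases c with _ | c
                · simp at h
                · refine ⟨?_, by omega⟩
                  simp only [Nat.add_sub_cancel]
                  have h2 : v = B * c + (B - 1) := by
                    rw [mul_add, mul_one] at h
                    omega
                  rw [h2, Nat.mul_add_div hB, Nat.div_eq_of_lt (by omega)]
                  simp
              obtain ⟨h3, h4⟩ := key _ _ _ hB hc
              obtain ⟨h5, h6⟩ := key _ _ _ hB hd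
              rw [h3, h5] at hzw
              have h7 : c = d := by omega
              apply ZMod.val_injective A
              subst h7
              omega
          simpa using h1
        have : ((univ.filter fun z : ZMod A => (A / L) ∣ z.val + 1).card : ℝ) ≤ L := by
          exact_mod_cast this
        linarith

theorem h3_l1_le (N b : ℕ) (a : ℕ → ℕ → ℂ) (ha : nsq (Icc (b + 1) (b + N)) N a ≤ 1) :
    ∑ n ∈ Icc (b + 1) (b + N), ∑ m ∈ range N, ‖a n m‖ ≤ N := by
  have h1 : (∑ p ∈ Icc (b + 1) (b + N) ×ˢ range N, 1 * ‖a p.1 p.2‖) ^ 2 ≤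
      (∑ p ∈ Icc (b + 1) (b + N) ×ˢ range N, (1 : ℝ) ^ 2) *
        (∑ p ∈ Icc (b + 1) (b + N) ×ˢ range N, ‖a p.1 p.2‖ ^ 2) :=
    Finset.sum_mul_sq_le_sq_mul_sq _ _ _
  have h2 : ∑ p ∈ Icc (b + 1) (b + N) ×ˢ range N, ‖a p.1 p.2‖ ^ 2 ≤ 1 := by
    rw [Finset.sum_product]
    exact ha
  have h3 : ∑ p ∈ Icc (b + 1) (b + N) ×ˢ range N, (1 : ℝ) ^ 2 = (N : ℝ) ^ 2 := by
    simp only [one_pow, Finset.sum_const, nsmul_eq_mul, mul_one, Finset.card_product,
      Nat.card_Icc, Finset.card_range]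
    have : b + N + 1 - (b + 1) = N := by omega
    rw [this]
    push_cast
    ring
  rw [← Finset.sum_product' (Icc (b + 1) (b + N)) (range N) (fun n m => ‖a n m‖)]
  simp only [one_mul] at h1
  rw [h3] at h1
  have h4 : (∑ p ∈ Icc (b + 1) (b + N) ×ˢ range N, ‖a p.1 p.2‖) ^ 2 ≤ (N : ℝ) ^ 2 := by
    refine h1.trans ?_
    have : (0 : ℝ) ≤ (N : ℝ) ^ 2 := by positivity
    nlinarith
  have h5 : (0 : ℝ) ≤ N := by positivity
  exact abs_le_of_sq_le_sq' h4 h5 |>.2

theorem h3_norm_add_ge (u v : ℂ) (c : ℝ) (h : ‖v‖ ≤ c) : ‖u‖ - c ≤ ‖u + v‖ := by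
  have h5 := norm_sub_le (u + v) v
  rw [add_sub_cancel_right] at h5
  linarith

theorem h3_F_move (A N b L : ℕ) [NeZero A] (hN : 1 ≤ N) (hL : 1 ≤ L) (hLA : L ∣ A)
    (a : ℕ → ℕ → ℂ) (ha : nsq (Icc (b + 1) (b + N)) N a ≤ 1) (z z0 y : ZMod A)
    (hz : h3blk A L z = h3blk A L z0) :
    ‖F A (Icc (b + 1) (b + N)) N a z0 y‖ - 60 * ((b : ℝ) + N) * N ^ 2 / L ≤
      ‖F A (Icc (b + 1) (b + N)) N a z y‖ := by
  have hB := h3_Bpos A L hLA hL
  have hA : (0 : ℝ) < A := by exact_mod_cast Nat.pos_of_ne_zero (NeZero.ne A)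
  have hL0 : (0 : ℝ) < L := by exact_mod_cast hL
  have hN0 : (0 : ℝ) < N := by exact_mod_cast hN
  -- the integer displacement
  set δ : ℤ := (z.val : ℤ) - z0.val with hδ
  have hzδ : z = z0 + (δ : ZMod A) := by
    rw [hδ]
    push_cast
    rw [ZMod.natCast_zmod_val, ZMod.natCast_zmod_val]
    ring
  have hδB : |(δ : ℝ)| ≤ (A : ℝ) / L := by
    have h1 : |δ| ≤ ((A / L : ℕ) : ℤ) := by
      unfold h3blk at hz
      have h2 := Nat.div_add_mod z.val (A / L)
      have h3 := Nat.div_add_mod z0.val (A / L)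
      have h4 := Nat.mod_lt z.val hB
      have h5 := Nat.mod_lt z0.val hB
      rw [hz] at h2
      rw [abs_le]
      constructor <;> omega
    have h2 : ((A / L : ℕ) : ℝ) = (A : ℝ) / L := Nat.cast_div hLA (by positivity)
    rw [← h2]
    have h3 : ((|δ| : ℤ) : ℝ) ≤ (((A / L : ℕ) : ℤ) : ℝ) := Int.cast_le.mpr h1
    rw [Int.cast_abs, Int.cast_natCast] at h3
    exact h3
  -- multiply by a unimodular factor
  have h1 : ‖F A (Icc (b + 1) (b + N)) N a z y‖ =
      ‖ps A (((-(b ^ 2 : ℤ) * δ : ℤ)) : ZMod A) * F A (Icc (b + 1) (b + N)) N a z y‖ := by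
    rw [norm_mul, h3_ps_norm, one_mul]
  have h2 : ps A (((-(b ^ 2 : ℤ) * δ : ℤ)) : ZMod A) * F A (Icc (b + 1) (b + N)) N a z y =
      F A (Icc (b + 1) (b + N)) N a z0 y + ∑ n ∈ Icc (b + 1) (b + N), ∑ m ∈ range N,
        a n m * ps A (((n ^ 2 + m ^ 2 : ℕ) : ZMod A) * z0 + (m : ZMod A) * y) *
          (ps A ((((n ^ 2 + m ^ 2 - b ^ 2 : ℤ) * δ : ℤ)) : ZMod A) - 1) := by
    unfold F
    rw [Finset.mul_sum, ← Finset.sum_add_distrib]
    apply Finset.sum_congr rfl
    intro n _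
    rw [Finset.mul_sum, ← Finset.sum_add_distrib]
    apply Finset.sum_congr rfl
    intro m _
    have h3 : ps A (((-(b ^ 2 : ℤ) * δ : ℤ)) : ZMod A) *
        ps A (((n ^ 2 + m ^ 2 : ℕ) : ZMod A) * z + (m : ZMod A) * y) =
        ps A (((n ^ 2 + m ^ 2 : ℕ) : ZMod A) * z0 + (m : ZMod A) * y) *
          ps A ((((n ^ 2 + m ^ 2 - b ^ 2 : ℤ) * δ : ℤ)) : ZMod A) := by
      rw [← h3_ps_add, ← h3_ps_add]
      congr 1
      rw [hzδ]
      push_cast
      ring
    linear_combination (a n m) * h3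
  have h4 : ‖∑ n ∈ Icc (b + 1) (b + N), ∑ m ∈ range N,
        a n m * ps A (((n ^ 2 + m ^ 2 : ℕ) : ZMod A) * z0 + (m : ZMod A) * y) *
          (ps A ((((n ^ 2 + m ^ 2 - b ^ 2 : ℤ) * δ : ℤ)) : ZMod A) - 1)‖ ≤
      60 * ((b : ℝ) + N) * N ^ 2 / L := by
    calc ‖∑ n ∈ Icc (b + 1) (b + N), ∑ m ∈ range N,
        a n m * ps A (((n ^ 2 + m ^ 2 : ℕ) : ZMod A) * z0 + (m : ZMod A) * y) *
          (ps A ((((n ^ 2 + m ^ 2 - b ^ 2 : ℤ) * δ : ℤ)) : ZMod A) - 1)‖
        ≤ ∑ n ∈ Icc (b + 1) (b + N), ∑ m ∈ range N,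
            ‖a n m‖ * (14 * ((b : ℝ) + N) * N / L) := by
          refine (norm_sum_le _ _).trans (Finset.sum_le_sum fun n hn => ?_)
          refine (norm_sum_le _ _).trans (Finset.sum_le_sum fun m hm => ?_)
          rw [norm_mul, norm_mul, h3_ps_norm, mul_one]
          apply mul_le_mul_of_nonneg_left _ (norm_nonneg _)
          refine (h3_ps_int_sub_one A _).trans ?_
          rw [Finset.mem_Icc] at hn
          rw [Finset.mem_range] at hm
          have hn1 : (b : ℝ) + 1 ≤ n := by exact_mod_cast hn.1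
          have hn2 : (n : ℝ) ≤ b + N := by exact_mod_cast hn.2
          have hm1 : (m : ℝ) ≤ N := by exact_mod_cast hm.le
          have hm0 : (0 : ℝ) ≤ m := by positivity
          have hb0 : (0 : ℝ) ≤ b := by positivity
          have h5 : (0 : ℝ) ≤ (n : ℝ) ^ 2 + m ^ 2 - b ^ 2 := by nlinarith
          have h6 : (n : ℝ) ^ 2 + m ^ 2 - b ^ 2 ≤ 2 * ((b : ℝ) + N) * N := by nlinarith
          push_cast
          rw [abs_mul, abs_of_nonneg h5]
          have h7 : ((n : ℝ) ^ 2 + m ^ 2 - b ^ 2) * |(δ : ℝ)| ≤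
              2 * ((b : ℝ) + N) * N * (A / L) := by
            apply mul_le_mul h6 hδB (abs_nonneg _) (by positivity)
          have h8 : 2 * Real.pi ≤ 7 := by
            have := Real.pi_lt_d2
            linarith
          calc 2 * Real.pi * (((n : ℝ) ^ 2 + m ^ 2 - b ^ 2) * |(δ : ℝ)|) / A
              ≤ 7 * (2 * ((b : ℝ) + N) * N * (A / L)) / A := by
                apply div_le_div_of_nonneg_right _ hA.le
                apply mul_le_mul h8 h7 (by positivity) (by norm_num)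
            _ = 14 * ((b : ℝ) + N) * N / L := by
                field_simp
                ring
      _ = (∑ n ∈ Icc (b + 1) (b + N), ∑ m ∈ range N, ‖a n m‖) *
            (14 * ((b : ℝ) + N) * N / L) := by
          rw [Finset.sum_mul]
          apply Finset.sum_congr rfl
          intro n _
          rw [Finset.sum_mul]
      _ ≤ N * (14 * ((b : ℝ) + N) * N / L) := by
          apply mul_le_mul_of_nonneg_right (h3_l1_le N b a ha) (by positivity)
      _ ≤ 60 * ((b : ℝ) + N) * N ^ 2 / L := by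
          rw [← mul_div_assoc]
          apply div_le_div_of_nonneg_right _ hL0.le
          have : 0 ≤ ((b : ℝ) + N) * N ^ 2 := by positivity
          nlinarith
  rw [h1, h2]
  exact h3_norm_add_ge _ _ _ h4

theorem block (A N b L : ℕ) [NeZero A] (hN : 1 ≤ N) (hL : 1 ≤ L) (hLA : L ∣ A)
    (a : ℕ → ℕ → ℂ) (ha : nsq (Icc (b + 1) (b + N)) N a ≤ 1) (lam : ℝ) (hlam : 0 < lam)
    (hLb : 60 * ((b : ℝ) + N) * N ^ 2 ≤ lam * L) (T0 : Finset (ZMod A))
    (hT0 : ∀ z ∈ T0, ∃ y, 2 * lam ≤ ‖F A (Icc (b + 1) (b + N)) N a z y‖) :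
    ∃ (T : Finset (ZMod A)) (x : ZMod A → ZMod A), T0 ⊆ T ∧
      (∀ z ∈ T, lam ≤ ‖F A (Icc (b + 1) (b + N)) N a z (x z)‖) ∧
      ∀ k : ℤ, tv A (fT A x T k) ≤ 2 * L := by
  have hL0 : (0 : ℝ) < L := by exact_mod_cast hL
  obtain ⟨P, hP⟩ : ∃ P : ℕ → Prop, ∀ j, P j ↔ ∃ (z0 : ZMod A) (y : ZMod A), h3blk A L z0 = j ∧
      2 * lam ≤ ‖F A (Icc (b + 1) (b + N)) N a z0 y‖ := ⟨_, fun j => Iff.rfl⟩
  have hY0 : ∀ j, ∃ y : ZMod A, P j → ∃ z0 : ZMod A, h3blk A L z0 = j ∧
      2 * lam ≤ ‖F A (Icc (b + 1) (b + N)) N a z0 y‖ := by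
    intro j
    by_cases h : P j
    · obtain ⟨z0, y, h1, h2⟩ := (hP j).mp h
      exact ⟨y, fun _ => ⟨z0, h1, h2⟩⟩
    · exact ⟨0, fun h' => absurd h' h⟩
  choose Y hY using hY0
  obtain ⟨T, hT⟩ : ∃ T : Finset (ZMod A), ∀ z, z ∈ T ↔ P (h3blk A L z) := by
    classical
    exact ⟨univ.filter fun z => P (h3blk A L z), by simp⟩
  refine ⟨T, fun z => Y (h3blk A L z), ?_, ?_, ?_⟩
  · intro z hz
    obtain ⟨y, hy⟩ := hT0 z hz
    rw [hT, hP]
    exact ⟨z, y, rfl, hy⟩
  · intro z hz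
    rw [hT] at hz
    obtain ⟨z0, hz0, hF⟩ := hY _ hz
    have h1 := h3_F_move A N b L hN hL hLA a ha z z0 (Y (h3blk A L z)) hz0.symm
    have h2 : 60 * ((b : ℝ) + N) * N ^ 2 / L ≤ lam := by
      rw [div_le_iff₀ hL0]
      exact hLb
    linarith
  · intro k
    obtain ⟨G, hG⟩ : ∃ G : ℕ → ℂ, ∀ j, (P j → G j = ps A ((k : ZMod A) * Y j)) ∧
        (¬ P j → G j = 0) := by
      classical
      exact ⟨fun j => if P j then ps A ((k : ZMod A) * Y j) else 0, fun j => ⟨fun h => if_pos h,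
        fun h => if_neg h⟩⟩
    have h1 : fT A (fun z => Y (h3blk A L z)) T k = fun z => G (h3blk A L z) := by
      funext z
      unfold fT
      by_cases h : z ∈ T
      · rw [if_pos h, (hG _).1 ((hT z).mp h)]
      · rw [if_neg h, (hG _).2 (fun h' => h ((hT z).mpr h'))]
    rw [h1]
    apply h3_tv_block A L hL hLA
    intro j
    by_cases h : P j
    · rw [(hG j).1 h]
      exact (h3_ps_norm A _).le
    · rw [(hG j).2 h]
      simp

end Stz
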