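import Pool.Agent.Helper65.Stz.Basic

set_option autoImplicit false

namespace Stz

open Finset

theorem h3_mu_nonneg (A : ℕ) (s : Finset (ZMod A)) : 0 ≤ mu A s := by
  unfold mu; positivity

theorem h3_mu_le_one (A : ℕ) [NeZero A] (s : Finset (ZMod A)) : mu A s ≤ 1 := by
  unfold mu
  have hA : (0 : ℝ) < A := by exact_mod_cast Nat.pos_of_ne_zero (NeZero.ne A)
  rw [div_le_one hA]
  have h := Finset.card_le_univ s
  rw [ZMod.card] at h
  exact_mod_cast h

theorem h3_mu_sdiff (A : ℕ) (R R' : Finset (ZMod A)) (h : R' ⊆ R) :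
    mu A (R \ R') = mu A R - mu A R' := by
  unfold mu
  rw [Finset.card_sdiff_of_subset h, Nat.cast_sub (Finset.card_le_card h)]
  ring

theorem h3_sum_ind_le (A : ℕ) [NeZero A] (g : ZMod A → ℂ) (hg : ∀ z, ‖g z‖ ≤ 1)
    (R : Finset (ZMod A)) :
    (A : ℝ)⁻¹ * ∑ z : ZMod A, ‖(if z ∈ R then g z else 0 : ℂ)‖ ^ 2 ≤ mu A R := by
  unfold mu
  rw [div_eq_inv_mul]
  apply mul_le_mul_of_nonneg_left _ (by positivity)
  calc ∑ z : ZMod A, ‖(if z ∈ R then g z else 0 : ℂ)‖ ^ 2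
      ≤ ∑ z : ZMod A, if z ∈ R then (1 : ℝ) else 0 := by
        apply Finset.sum_le_sum
        intro z _
        split_ifs
        · have := hg z
          have h0 := norm_nonneg (g z)
          nlinarith
        · simp
    _ = (R.card : ℝ) := by
        rw [Finset.sum_ite_mem]; simp

/-- the coefficient vector of the energy -/
noncomputable def h3Sv (A : ℕ) [NeZero A] (x : ZMod A → ZMod A) (h : ZMod A → ℂ) (p : ℕ × ℕ) : ℂ :=
  (A : ℂ)⁻¹ * ∑ z, h z * ps A (((p.1 ^ 2 + p.2 ^ 2 : ℕ) : ZMod A) * z + (p.2 : ZMod A) * x z)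

theorem h3_Eg_eq_Sv (A N : ℕ) [NeZero A] (I : Finset ℕ) (x : ZMod A → ZMod A) (h : ZMod A → ℂ) :
    Eg A I N x h = ∑ p ∈ I ×ˢ range N, ‖h3Sv A x h p‖ ^ 2 := by
  unfold Eg h3Sv
  rw [Finset.sum_product]

theorem h3_Sv_sub (A : ℕ) [NeZero A] (x : ZMod A → ZMod A) (g : ZMod A → ℂ)
    (R R' : Finset (ZMod A)) (hR : R' ⊆ R) (p : ℕ × ℕ) :
    h3Sv A x (fun z => if z ∈ R \ R' then g z else 0) p =
      h3Sv A x (fun z => if z ∈ R then g z else 0) p -
        h3Sv A x (fun z => if z ∈ R' then g z else 0) p := by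
  unfold h3Sv
  rw [← mul_sub, ← Finset.sum_sub_distrib]
  congr 1
  apply Finset.sum_congr rfl
  intro z _
  rw [← sub_mul]
  congr 1
  by_cases h1 : z ∈ R'
  · have h2 : z ∈ R := hR h1
    simp [h1, h2]
  · by_cases h2 : z ∈ R
    · simp [h1, h2]
    · simp [h1, h2]

theorem hered_main (A N : ℕ) [NeZero A] (hN : 1 ≤ N) (I : Finset ℕ) (hI : ∀ n ∈ I, n ^ 2 < A)
    (a : ℕ → ℕ → ℂ) (ha : nsq I N a ≤ 1) (x : ZMod A → ZMod A) (T : Finset (ZMod A)) (lam η : ℝ)
    (hη : 0 < η) (hlam : 0 ≤ lam) (hT : ∀ z ∈ T, lam ≤ ‖F A I N a z (x z)‖)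
    (hE : η * N ≤ (lam * mu A T) ^ 2) :
    ∃ (g : ZMod A → ℂ) (R : Finset (ZMod A)), (∀ z, ‖g z‖ ≤ 1) ∧ R ⊆ T ∧ η / 2 ≤ mu A R ∧
      ∀ R' ⊆ R, η ^ 2 / 16 * N * (mu A R') ^ 2 ≤
        Eg A I N x (fun z => if z ∈ R' then g z else 0) := by
  obtain ⟨g, hg, hgE⟩ := Eg_ge A N I a ha x T lam hlam hT
  have hg1 : ∀ z, ‖g z‖ ≤ 1 := by
    intro z
    refine (hg z).trans ?_
    split_ifs <;> norm_num
  have hgT : (fun z => if z ∈ T then g z else 0) = g := by
    funext z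
    split_ifs with h
    · rfl
    · have := hg z
      rw [if_neg h] at this
      exact (norm_le_zero_iff.mp this).symm
  have hN0 : (0 : ℝ) < N := by exact_mod_cast hN
  set κ : ℝ := η * N / 2 with hκ
  set Ψ : Finset (ZMod A) → ℝ := fun R =>
    Eg A I N x (fun z => if z ∈ R then g z else 0) - κ * mu A R with hΨ
  obtain ⟨R, hRmem, hRmax⟩ := Finset.exists_max_image T.powerset Ψ ⟨T, Finset.mem_powerset_self T⟩
  have hRT : R ⊆ T := Finset.mem_powerset.mp hRmem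
  have hEub : ∀ S : Finset (ZMod A), Eg A I N x (fun z => if z ∈ S then g z else 0) ≤
      N * mu A S := by
    intro S
    refine (Eg_le A N I hI x _).trans ?_
    exact mul_le_mul_of_nonneg_left (h3_sum_ind_le A g hg1 S) hN0.le
  refine ⟨g, R, hg1, hRT, ?_, ?_⟩
  · have h1 : Ψ T ≤ Ψ R := hRmax T (Finset.mem_powerset_self T)
    have h2 : η * N / 2 ≤ Ψ T := by
      simp only [hΨ]
      rw [hgT]
      have := h3_mu_le_one A T
      have hm := h3_mu_nonneg A T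
      have h3 : η * N ≤ Eg A I N x g := hE.trans hgE
      have h4 : κ * mu A T ≤ κ := by
        have : 0 ≤ κ := by positivity
        nlinarith
      linarith
    have h3 : Ψ R ≤ Eg A I N x (fun z => if z ∈ R then g z else 0) := by
      simp only [hΨ]
      have := h3_mu_nonneg A R
      have : 0 ≤ κ := by positivity
      have : 0 ≤ κ * mu A R := by positivity
      linarith
    have h4 := hEub R
    have h5 : η / 2 * N ≤ mu A R * N := by nlinarith
    exact le_of_mul_le_mul_right h5 hN0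
  · intro R' hR'
    have h1 : Ψ (R \ R') ≤ Ψ R := hRmax (R \ R') (Finset.mem_powerset.mpr
      (Finset.sdiff_subset.trans hRT))
    simp only [hΨ] at h1
    rw [h3_mu_sdiff A R R' hR'] at h1
    have h2 : κ * mu A R' ≤ Eg A I N x (fun z => if z ∈ R then g z else 0) -
        Eg A I N x (fun z => if z ∈ R \ R' then g z else 0) := by linarith
    have hm := h3_mu_nonneg A R'
    set SR := h3Sv A x (fun z => if z ∈ R then g z else 0) with hSR
    set SR' := h3Sv A x (fun z => if z ∈ R' then g z else 0) with hSR'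
    rw [h3_Eg_eq_Sv, h3_Eg_eq_Sv] at h2
    have h3 : ∑ p ∈ I ×ˢ range N, ‖SR p‖ ^ 2 -
        ∑ p ∈ I ×ˢ range N, ‖h3Sv A x (fun z => if z ∈ R \ R' then g z else 0) p‖ ^ 2 ≤
        2 * ∑ p ∈ I ×ˢ range N, ‖SR p‖ * ‖SR' p‖ := by
      rw [← Finset.sum_sub_distrib, Finset.mul_sum]
      apply Finset.sum_le_sum
      intro p _
      rw [h3_Sv_sub A x g R R' hR' p]
      have h4 := abs_norm_sub_norm_le (SR p) (SR' p)
      have h5 : (‖SR p‖ - ‖SR' p‖) ^ 2 ≤ ‖SR p - SR' p‖ ^ 2 := by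
        apply sq_le_sq'
        · have := abs_le.mp h4
          linarith [this.1]
        · exact (le_abs_self _).trans h4
      nlinarith [sq_nonneg (‖SR' p‖)]
    have h6 : (∑ p ∈ I ×ˢ range N, ‖SR p‖ * ‖SR' p‖) ^ 2 ≤
        (∑ p ∈ I ×ˢ range N, ‖SR p‖ ^ 2) * (∑ p ∈ I ×ˢ range N, ‖SR' p‖ ^ 2) :=
      Finset.sum_mul_sq_le_sq_mul_sq _ _ _
    have h7 : ∑ p ∈ I ×ˢ range N, ‖SR p‖ ^ 2 ≤ N := by
      have := hEub R
      rw [h3_Eg_eq_Sv] at this
      refine this.trans ?_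
      have := h3_mu_le_one A R
      nlinarith
    rw [h3_Eg_eq_Sv]
    change _ ≤ ∑ p ∈ I ×ˢ range N, ‖SR' p‖ ^ 2
    set P := ∑ p ∈ I ×ˢ range N, ‖SR p‖ * ‖SR' p‖
    set E' := ∑ p ∈ I ×ˢ range N, ‖SR' p‖ ^ 2 with hE'
    have hE'0 : 0 ≤ E' := by positivity
    have h8 : κ * mu A R' ≤ 2 * P := h2.trans h3
    have h9 : (κ * mu A R') ^ 2 ≤ 4 * (N * E') := by
      have h10 : 0 ≤ κ * mu A R' := by positivity
      calc (κ * mu A R') ^ 2 ≤ (2 * P) ^ 2 := by
            apply pow_le_pow_left₀ h10 h8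
        _ = 4 * P ^ 2 := by ring
        _ ≤ 4 * ((∑ p ∈ I ×ˢ range N, ‖SR p‖ ^ 2) * E') := by linarith
        _ ≤ 4 * (N * E') := by
            have := mul_le_mul_of_nonneg_right h7 hE'0
            linarith
    have h11 : (N : ℝ) * (η ^ 2 / 16 * N * (mu A R') ^ 2) ≤ N * E' := by
      have : (κ * mu A R') ^ 2 = 4 * (N * (η ^ 2 / 16 * N * (mu A R') ^ 2)) := by
        rw [hκ]; ring
      linarith
    exact le_of_mul_le_mul_left h11 hN0

end Stz
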