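import Pool.Agent.Helper65.Stz.Basic

set_option autoImplicit false

namespace Stz

open Finset
open scoped ComplexConjugate

/-- duality (`T T*`) -/
theorem ttstar (A N : ℕ) [NeZero A] (I : Finset ℕ) (a : ℕ → ℕ → ℂ) (ha : nsq I N a ≤ 1)
    (W : Finset (ZMod A × ZMod A)) (lam : ℝ) (hlam : 0 ≤ lam)
    (hW : ∀ w ∈ W, lam ≤ ‖F A I N a w.1 w.2‖) :
    lam ^ 2 * (W.card : ℝ) ^ 2 ≤ ∑ w ∈ W, ∑ w' ∈ W,
      ‖F A I N (fun _ _ => 1) (w'.1 - w.1) (w'.2 - w.2)‖ := by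
  set c : ZMod A × ZMod A → ℂ := fun w =>
    conj (F A I N a w.1 w.2) / (‖F A I N a w.1 w.2‖ : ℂ) with hc
  have hc1 : ∀ w, ‖c w‖ ≤ 1 := fun w => (phase _).1
  -- the characters
  set φ : ℕ → ℕ → ZMod A × ZMod A → ℂ := fun n m w =>
    ps A (((n ^ 2 + m ^ 2 : ℕ) : ZMod A) * w.1 + (m : ZMod A) * w.2) with hφ
  set g : ℕ → ℕ → ℂ := fun n m => ∑ w ∈ W, c w * φ n m w with hg
  have h1 : ∑ n ∈ I, ∑ m ∈ range N, a n m * g n m =
      ((∑ w ∈ W, ‖F A I N a w.1 w.2‖ : ℝ) : ℂ) := by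
    have h2 : ∀ w : ZMod A × ZMod A, c w * F A I N a w.1 w.2 = (‖F A I N a w.1 w.2‖ : ℂ) :=
      fun w => (phase _).2
    rw [Complex.ofReal_sum]
    simp only [← h2]
    unfold F
    simp only [hg, mul_sum]
    rw [comm3]
    refine sum_congr rfl fun w _ => sum_congr rfl fun n _ => sum_congr rfl fun m _ => ?_
    simp only [hφ]
    ring
  have h4 : lam * W.card ≤ ∑ w ∈ W, ‖F A I N a w.1 w.2‖ := by
    have := card_nsmul_le_sum W (fun w => ‖F A I N a w.1 w.2‖) lam hW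
    rw [nsmul_eq_mul] at this
    linarith
  have h5 := cs2 I (range N) a g
  rw [h1, Complex.norm_real, Real.norm_of_nonneg (sum_nonneg fun w _ => norm_nonneg _)] at h5
  have hG0 : 0 ≤ ∑ n ∈ I, ∑ m ∈ range N, ‖g n m‖ ^ 2 :=
    sum_nonneg fun n _ => sum_nonneg fun m _ => sq_nonneg _
  have h6 : (∑ w ∈ W, ‖F A I N a w.1 w.2‖) ^ 2 ≤ ∑ n ∈ I, ∑ m ∈ range N, ‖g n m‖ ^ 2 := by
    refine h5.trans ?_
    calc nsq I N a * ∑ n ∈ I, ∑ m ∈ range N, ‖g n m‖ ^ 2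
        ≤ 1 * ∑ n ∈ I, ∑ m ∈ range N, ‖g n m‖ ^ 2 := mul_le_mul_of_nonneg_right ha hG0
      _ = _ := one_mul _
  have h7 : ((∑ n ∈ I, ∑ m ∈ range N, ‖g n m‖ ^ 2 : ℝ) : ℂ) = ∑ w ∈ W, ∑ w' ∈ W,
      conj (c w) * c w' * F A I N (fun _ _ => 1) (w'.1 - w.1) (w'.2 - w.2) := by
    push_cast
    have h8 : ∀ n m, ((‖g n m‖ : ℂ)) ^ 2 = ∑ w ∈ W, ∑ w' ∈ W,
        conj (c w) * c w' * φ n m (w' - w) := by
      intro n m
      have h9 : ((‖g n m‖ : ℂ)) ^ 2 = g n m * conj (g n m) := by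
        rw [← sq_norm_eq]; push_cast; ring
      rw [h9]
      simp only [hg, map_sum, sum_mul_sum]
      rw [sum_comm]
      refine sum_congr rfl fun w _ => sum_congr rfl fun w' _ => ?_
      have h10 : φ n m (w' - w) = φ n m w' * conj (φ n m w) := by
        simp only [hφ]
        rw [ps_mul_conj]
        congr 1
        rw [Prod.fst_sub, Prod.snd_sub]
        ring
      rw [h10, map_mul]
      ring
    simp only [h8]
    rw [comm3]
    refine sum_congr rfl fun w _ => ?_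
    rw [comm3]
    refine sum_congr rfl fun w' _ => ?_
    unfold F
    simp only [mul_sum]
    refine sum_congr rfl fun n _ => sum_congr rfl fun m _ => ?_
    simp only [hφ]
    rw [Prod.fst_sub, Prod.snd_sub]
    ring
  have h8 : ∑ n ∈ I, ∑ m ∈ range N, ‖g n m‖ ^ 2 ≤ ∑ w ∈ W, ∑ w' ∈ W,
      ‖F A I N (fun _ _ => 1) (w'.1 - w.1) (w'.2 - w.2)‖ := by
    have h9 : ‖((∑ n ∈ I, ∑ m ∈ range N, ‖g n m‖ ^ 2 : ℝ) : ℂ)‖ =
        ∑ n ∈ I, ∑ m ∈ range N, ‖g n m‖ ^ 2 := by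
      rw [Complex.norm_real, Real.norm_of_nonneg hG0]
    rw [← h9, h7]
    refine (norm_sum_le _ _).trans (sum_le_sum fun w _ => ?_)
    refine (norm_sum_le _ _).trans (sum_le_sum fun w' _ => ?_)
    rw [norm_mul, norm_mul, RCLike.norm_conj]
    have h10 := hc1 w
    have h11 := hc1 w'
    have h12 : ‖c w‖ * ‖c w'‖ ≤ 1 := by
      calc ‖c w‖ * ‖c w'‖ ≤ 1 * 1 := mul_le_mul h10 h11 (norm_nonneg _) zero_le_one
        _ = 1 := one_mul _
    calc ‖c w‖ * ‖c w'‖ * ‖F A I N (fun _ _ => 1) (w'.1 - w.1) (w'.2 - w.2)‖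
        ≤ 1 * ‖F A I N (fun _ _ => 1) (w'.1 - w.1) (w'.2 - w.2)‖ :=
          mul_le_mul_of_nonneg_right h12 (norm_nonneg _)
      _ = _ := one_mul _
  refine le_trans ?_ (h6.trans h8)
  rw [← mul_pow]
  exact pow_le_pow_left₀ (by positivity) h4 2

end Stz
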